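import Pool.Agent.P.MP_f1a348_lc.CT.Layer
import Pool.Agent.P.MP_f1a348_lc.UP.TSOL

/-!
Project CT: the permutations that centralise all atoms form a solvable group modulo the kernel.
-/

namespace Pool.Agent.P.MP_f1a348_lc.CT

open GI (gen Cg FP)
open UP (Nm der SolvMod)
open PS
open scoped commutatorElement

variable {U : Type} [Group U] {O : ℕ → Subgroup U} {r : ℕ} {s t : FP U}

/-- `s` maps `X` onto `Y` -/
def Mp (s : FP U) (X Y : Subgroup U) : Prop := ∀ x, s.app x ∈ Y ↔ x ∈ X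

theorem Mp.inv {X Y : Subgroup U} (h : Mp s X Y) : Mp s⁻¹ Y X := fun x => by
  rw [← h, FP.app_app_inv]

theorem kp (hs : s ∈ TT O 1) (j : ℕ) {x : U} : s.app x ∈ O j ↔ x ∈ O j := T0_keep j hs.1 x

theorem cm_cg (h : Ser O r) (hs : s ∈ TT O 1) (j : ℕ) {x y : U} (hx : x ∈ O 0) (hy : y ∈ O j) :
    Cg (O (j + 1)) (s.app ⁅x, y⁆) ⁅s.app x, s.app y⁆ := by
  have l := h.le (Nat.zero_le j)
  have p := T0_pv (j + 1) hs.1
  have c := cm_mem (h.nm j) hx hy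
  have a1 := (df_iff p 0 _ _).1 ((hs.2.1 j).1 _ ((O j).mul_mem c hy) x hx)
  have a2 := (df_iff p 0 _ _).1 ((hs.2.1 j).1 _ c y (l hy))
  have a3 := (df_iff p 0 _ _).1 ((hs.2.1 j).2 x hx y hy)
  have e : ⁅x, y⁆ * y * x = x * y := by simp [commutatorElement_def]
  simp only [wd_zero, e] at a1 a2 a3
  have hx' := (kp hs 0).2 hx
  have b := ((a2.right (nm_cg (h.nm _) hx')).symm.trans a1.symm).trans a3
  simpa [commutatorElement_def, mul_assoc] using b.right (nm_cg (h.nm _)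
    ((O 0).inv_mem ((O 0).mul_mem ((kp hs 0).2 (l hy)) hx')))

theorem cm_map (h : Ser O r) (hs : s ∈ TT O 1) (j : ℕ) {x y : U} (hx : x ∈ O 0) (hy : y ∈ O j)
    {N N' : Subgroup U} (hN : Mp s N N') (l : O (j + 1) ≤ N') :
    ⁅s.app x, s.app y⁆ ∈ N' ↔ ⁅x, y⁆ ∈ N := by
  rw [← (cm_cg h hs j hx hy).mem_iff l, hN]

theorem cg_map (hs : s ∈ TT O 1) {x y : U} (hx : x ∈ O 0) (hy : y ∈ O 0) {N N' : Subgroup U}
    (hN : Mp s N N') (l : O 1 ≤ N') (e : Cg N x y) : Cg N' (s.app x) (s.app y) := by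
  have := TSYL.mul_cg hs hx ((O 0).mul_mem ((O 0).inv_mem hx) hy)
  rw [mul_inv_cancel_left] at this
  exact (Cg.mul_mem ((hN _).2 e) _).trans (this.mono l).symm

theorem fx_of_gen (hs : s ∈ TT O 1) {X Y : Subgroup U} {g : List U} (lo : O 1 ≤ Y)
    (hi : X ≤ O 0) (YX : Y ≤ X) (n : Nm X Y) (kX : s ∈ Keep X) (kY : s ∈ Keep Y)
    (hg : X ≤ Y ⊔ gen g) (hf : ∀ x ∈ g, x ∈ X ∧ Cg Y x (s.app x)) : s ∈ FxG X Y := by
  let E : Subgroup U :=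
    { carrier := {x | x ∈ X ∧ Cg Y x (s.app x)}
      one_mem' := ⟨X.one_mem, Cg.one_iff.2 (lo (TSYL.one_mem hs))⟩
      mul_mem' := fun a b => ⟨X.mul_mem a.1 b.1, (a.2.mul (nm_cg n b.1) b.2).trans
        ((TSYL.mul_cg hs (hi a.1) (hi b.1)).mono lo).symm⟩
      inv_mem' := fun {x} a => ⟨X.inv_mem a.1, (a.2.inv (nm_cg n (X.inv_mem a.1))).trans (by
        have := (TSYL.mul_cg hs (hi a.1) (hi (X.inv_mem a.1))).mem_iff lo
        rw [mul_inv_cancel] at this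
        simpa [Cg] using this.1 (lo (TSYL.one_mem hs)))⟩ }
  exact ⟨kX, fun x hx => ((hg.trans (sup_le (fun y hy => ⟨YX hy, Y.mul_mem (Y.inv_mem hy)
    ((kY y).2 hy)⟩) (GI.gen_le.2 hf)) : X ≤ E) hx).2⟩

theorem cm_fix (hs : s ∈ TT O 1) (ht : t ∈ TT O 1) {N : Subgroup U} (lo : O 1 ≤ N)
    (ks : s ∈ Keep N) (kt : t ∈ Keep N) {x : U} (hx : x ∈ O 0)
    (e : Cg N (t⁻¹.app (s⁻¹.app x)) (s⁻¹.app (t⁻¹.app x))) : Cg N x ((⁅s, t⁆ : FP U).app x) := by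
  have s' := (TT O 1).inv_mem hs
  have t' := (TT O 1).inv_mem ht
  simpa [commutatorElement_def] using cg_map ((TT O 1).mul_mem hs ht) ((kp t' 0).2 ((kp s' 0).2 hx))
    ((kp s' 0).2 ((kp t' 0).2 hx)) ((Keep N).mul_mem ks kt) lo e

theorem cm_in {Γ : Type} [Group Γ] {H : Subgroup Γ} {a b : Γ} (ha : a ∈ H) (hb : b ∈ H) :
    ⁅a, b⁆ ∈ H := H.mul_mem (H.mul_mem (H.mul_mem ha hb) (H.inv_mem ha)) (H.inv_mem hb)

/-- the stabiliser of a series of length two is abelian -/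
theorem stab_two {X Y : Subgroup U} {D : Subgroup (FP U)} (hD : D ≤ TT O 1) (hi : X ≤ O 0)
    (hY : Y ≤ O 0) (ab : ∀ a ∈ Y, ∀ b ∈ Y, ⁅a, b⁆ ∈ O 1) (h1 : D ≤ FxG X Y) (h2 : D ≤ FxG Y (O 1)) :
    ⁅D, D⁆ ≤ FxG X (O 1) := by
  have key : ∀ s ∈ D, ∀ t ∈ D, ∀ x ∈ X, Cg (O 1) (s.app (t.app x))
      (x * ((x⁻¹ * s.app x) * (x⁻¹ * t.app x))) := fun s hs t ht x hx => by
    have b : x⁻¹ * t.app x ∈ Y := (h1 ht).2 x hx
    have := (TSYL.mul_cg (hD hs) (hi hx) (hY b)).trans (((h2 hs).2 _ b).symm.left _)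
    simpa [mul_assoc] using this
  refine Subgroup.commutator_le.2 fun s hs t ht => ⟨cm_in (h1 hs).1 (h1 ht).1, fun x hx => ?_⟩
  have s' := D.inv_mem hs
  have t' := D.inv_mem ht
  exact cm_fix (hD hs) (hD ht) le_rfl (T0_keep 1 (hD hs).1) (T0_keep 1 (hD ht).1) (hi hx)
    (((key _ t' _ s' x hx).trans ((cg_comm (ab _ (Y.inv_mem ((h1 s').2 x hx)) _
      (Y.inv_mem ((h1 t').2 x hx)))).left x)).trans (key _ s' _ t' x hx).symm)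

theorem cm_key (h : Ser O r) (hs : s ∈ TT O 1) {N : Subgroup U} (lo : O 1 ≤ N) (n : Nm (O 0) N)
    {g x : U} (hg : g ∈ O 0) (hx : x ∈ O 0) (f1 : Cg N x (s.app x))
    (f2 : Cg N (g * x * g⁻¹) (s.app (g * x * g⁻¹))) : ⁅g⁻¹ * s.app g, x⁆ ∈ N := by
  have hy := (O 0).mul_mem ((O 0).mul_mem hg hx) ((O 0).inv_mem hg)
  have g' := (kp hs 0).2 hg
  have a := (TSYL.mul_cg hs hy hg).mono lo
  rw [inv_mul_cancel_right] at a
  have b := (((f2.right (nm_cg n g')).trans a.symm).trans ((TSYL.mul_cg hs hg hx).mono lo)).trans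
    (f1.symm.left _)
  have c := n _ ((O 0).mul_mem hx ((O 0).mul_mem ((O 0).inv_mem hg) g')) _ b
  convert c using 1
  simp only [commutatorElement_def]
  group

/-! ### invariant subgroups -/

structure Iv (O : ℕ → Subgroup U) (X : Subgroup U) : Prop where
  lo : O 1 ≤ X
  hi : X ≤ O 0
  keep : TT O 1 ≤ Keep X

theorem Iv.of {X : Subgroup U} (lo : O 1 ≤ X) (hi : X ≤ O 0)
    (h : ∀ s ∈ TT O 1, ∀ x ∈ X, s.app x ∈ X) : Iv O X :=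
  ⟨lo, hi, fun s hs x => ⟨fun e => by simpa using h _ ((TT O 1).inv_mem hs) _ e, h s hs x⟩⟩

theorem Iv.of' {X : Subgroup U} (lo : O 1 ≤ X) (hi : X ≤ O 0)
    (h : ∀ s ∈ TT O 1, ∀ E : Subgroup U, (∀ x, x ∈ E ↔ s.app x ∈ X) → X ≤ E) : Iv O X :=
  Iv.of lo hi fun s hs x hx => (TSYL.pb hs lo hi).elim fun E e => (e x).1 (h s hs E e hx)

theorem exists_inn (h : Ser O r) {g : U} (hg : g ∈ O 0) :
    ∃ c ∈ TT O 1, ∀ x ∈ O 0, c.app x = g * x * g⁻¹ := by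
  have := h.fin
  obtain ⟨c, a, b⟩ := exists_perm (O 0) (fun x => g * x * g⁻¹) (h.nm 0 g hg)
    fun x _ y _ e => by simpa using e
  exact ⟨c, TSYL.inn_TT h hg ⟨a, b⟩ 1, b⟩

theorem Iv.nm {X : Subgroup U} (i : Iv O X) (h : Ser O r) : Nm (O 0) X := fun g hg x hx => by
  obtain ⟨c, a, b⟩ := exists_inn h hg
  rw [← b x (i.hi hx)]
  exact (i.keep a x).2 hx

theorem Iv.sup {X Y : Subgroup U} (i : Iv O X) (i' : Iv O Y) : Iv O (X ⊔ Y) :=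
  Iv.of' (i.lo.trans le_sup_left) (sup_le i.hi i'.hi) fun _ hs _ e =>
    sup_le (fun x hx => (e x).2 ((le_sup_left : X ≤ _) ((i.keep hs x).2 hx)))
      fun x hx => (e x).2 ((le_sup_right : Y ≤ _) ((i'.keep hs x).2 hx))

theorem Iv.cm {X : Subgroup U} (i : Iv O X) (h : Ser O r) : Iv O (⁅X, X⁆ ⊔ O 1) :=
  Iv.of' le_sup_right (sup_le ((UP.SOLz.der_le 1 X).trans i.hi) (h.anti 0)) fun _ hs _ e =>
    sup_le (Subgroup.commutator_le.2 fun x hx y hy => (e _).2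
      (((cm_cg h hs 0 (i.hi hx) (i.hi hy)).mem_iff le_sup_right).2 ((le_sup_left : ⁅X, X⁆ ≤ _)
        (Subgroup.commutator_mem_commutator ((i.keep hs x).2 hx) ((i.keep hs y).2 hy)))))
      fun x hx => (e x).2 ((le_sup_right : O 1 ≤ _) ((kp hs 1).2 hx))

theorem Iv.cn {X Y : Subgroup U} (i : Iv O X) (i' : Iv O Y) (h : Ser O r) (n : Nm X (O 1)) :
    Iv O (Cn n Y) :=
  Iv.of (fun x hx => ⟨i.lo hx, fun y hy => cm_swap (cm_mem (h.nm 1) (i'.hi hy) hx)⟩)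
    (fun _ hx => i.hi hx.1) fun s hs x hx => ⟨(i.keep hs x).2 hx.1, fun y hy => by
      have hy' := (i'.keep ((TT O 1).inv_mem hs) y).2 hy
      simpa using (cm_map h hs 0 (i.hi hx.1) (i'.hi hy') (T0_keep 1 hs.1) le_rfl).2 (hx.2 _ hy')⟩

theorem desc (h : Ser O r) {R C N : Subgroup U} (hR : SolvMod R ⊥) (RG : R ≤ O 0) (i : Iv O C)
    (CR : C ≤ R) (lo : O 1 ≤ N)
    (step : ∀ Y, Iv O Y → Y ≤ C → (∀ a ∈ Y, ∀ b ∈ Y, ⁅a, b⁆ ∈ N) → Y ≤ N) : C ≤ N := by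
  obtain ⟨k, hk⟩ := hR
  have key : ∀ k Y, Iv O Y → Y ≤ C → (∀ y ∈ der k Y, y ∈ O 1) → Y ≤ N := fun k => by
    induction k with
    | zero => exact fun Y _ _ e y hy => lo (e y hy)
    | succ k ih =>
      refine fun Y iY YC e => step Y iY YC fun a ha b hb => ih _ (iY.cm h)
        (sup_le ((UP.SOLz.der_le 1 Y).trans YC) i.lo) (fun y hy => ?_)
        ((le_sup_left : ⁅Y, Y⁆ ≤ _) (Subgroup.commutator_mem_commutator ha hb))
      have n : Nm ⁅Y, Y⁆ (O 1) := fun g hg => h.nm 1 g (iY.hi (UP.SOLz.der_le 1 Y hg))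
      obtain ⟨x, hx, e1⟩ := UP.SOLz.der_prd (Y := ⁅Y, Y⁆ ⊔ O 1) (sup_le (b := O 1)
        (c := UP.SOLz.prd n) (fun y hy => ⟨y, hy, by simp⟩) fun y hy => ⟨1, one_mem _, by simpa⟩) n k y hy
      have : x ∈ der (k + 1) Y := by
        rw [add_comm, UP.SOLz.der_add]
        exact hx
      simpa using (O 1).mul_mem (e x this) e1
  exact key k C i le_rfl fun y hy => (bot_le : ⊥ ≤ O 1) (hk (UP.SOLz.der_mono k _ _ CR hy))

theorem cm_sup {G N X Y : Subgroup U} (n : Nm G N) {W : Set U} (hX : X ≤ G) (hY : Y ≤ G)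
    (a : ∀ x ∈ X, ∀ w ∈ W, ⁅x, w⁆ ∈ N) (b : ∀ x ∈ Y, ∀ w ∈ W, ⁅x, w⁆ ∈ N) :
    ∀ x ∈ X ⊔ Y, ∀ w ∈ W, ⁅x, w⁆ ∈ N := fun _ hx =>
  ((sup_le (fun x hx => ⟨hX hx, a x hx⟩) fun x hx => ⟨hY hx, b x hx⟩ : X ⊔ Y ≤ Cn n W) hx).2

/-- the critical subgroups -/
structure Crit (O : ℕ → Subgroup U) (R Z A : Subgroup U) : Prop where
  iZ : Iv O Z
  iA : Iv O A
  ZA : Z ≤ A
  AR : A ≤ R
  cZ : ∀ a ∈ A, ∀ z ∈ Z, ⁅a, z⁆ ∈ O 1
  cA : ∀ a ∈ A, ∀ b ∈ A, ⁅a, b⁆ ∈ Z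
  mZ : ∀ Y, Iv O Y → Z ≤ Y → Y ≤ R → (∀ a ∈ Y, ∀ b ∈ Y, ⁅a, b⁆ ∈ O 1) → Y ≤ Z
  mA : ∀ Y, Iv O Y → A ≤ Y → Y ≤ R → (∀ a ∈ Y, ∀ z ∈ Z, ⁅a, z⁆ ∈ O 1) →
    (∀ a ∈ Y, ∀ b ∈ Y, ⁅a, b⁆ ∈ Z) → Y ≤ A

variable {R Z A : Subgroup U}

theorem Crit.ly (c : Crit O R Z A) (h : Lay O r) (j : ℕ) :
    LY (O 0) (O (j + 1)) (O (j + 2)) Z A :=
  ⟨h.ser.fin, h.ser.anti _, h.ser.le (Nat.zero_le _), h.ser.nm _, h.ser.nm _,
    fun x hx => h.ser.cen _ (by omega) x (h.ser.le (by omega) hx), h.ss _ (by omega), c.ZA,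
    c.iA.hi, c.iZ.nm h.ser, fun a ha z hz => h.ser.cen _ (by omega) _ (c.cZ a ha z hz), c.cA⟩

theorem Crit.cen (c : Crit O R Z A) (h : Ser O r) {a : U} (ha : a ∈ A)
    (e : ∀ b ∈ A, ⁅a, b⁆ ∈ O 1) : a ∈ Z :=
  c.mZ _ (c.iA.cn c.iA h fun g hg => h.nm 1 g (c.iA.hi hg))
    (fun z hz => ⟨c.ZA hz, fun b hb => cm_swap (c.cZ b hb z hz)⟩) (fun _ t => c.AR t.1)
    (fun _ s _ t => s.2 _ t.1) ⟨ha, e⟩

theorem Crit.cenR (c : Crit O R Z A) (h : Ser O r) (iR : Iv O R) (hR : SolvMod R ⊥) {a : U}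
    (ha : a ∈ R) (e : ∀ b ∈ A, ⁅a, b⁆ ∈ O 1) : a ∈ Z := by
  refine desc h hR iR.hi (iR.cn c.iA h fun g hg => h.nm 1 g (iR.hi hg)) (fun _ t => t.1) c.iZ.lo
    (fun Y i l m y hy => c.cen h ?_ (l hy).2) ⟨ha, e⟩
  have n := c.iZ.nm h
  refine c.mA _ (c.iA.sup i) le_sup_left (sup_le c.AR fun _ t => (l t).1)
    (cm_sup (h.nm 1) c.iA.hi i.hi c.cZ fun y hy z hz => (l hy).2 z (c.ZA hz))
    (cm_sup n c.iA.hi i.hi (fun a ha w hw => cm_swap ?_) fun a ha w hw => cm_swap ?_)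
    ((le_sup_right : Y ≤ _) hy)
  · exact cm_sup (W := A) n c.iA.hi i.hi c.cA (fun y hy b hb => c.iZ.lo ((l hy).2 b hb)) w hw a ha
  · exact cm_sup (W := Y) n c.iA.hi i.hi
      (fun b hb y hy => c.iZ.lo (cm_swap ((l hy).2 b hb))) m w hw a ha

/-- an element of `Z` that centralises all good elements lies in the Fitting subgroup -/
theorem Crit.faith (c : Crit O R Z A) (h : Lay O r) {z : U} (hz : z ∈ Z)
    (e : ∀ j v, Gd Z (O (j + 1)) (O (j + 2)) v → ⁅z, v⁆ ∈ O (j + 2)) : z ∈ O 1 := by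
  have s := h.ser
  let K : Subgroup U := ⨅ j, Cn (X := Z) (M := O (j + 2))
    (fun g hg => s.nm _ g (c.iZ.hi hg)) (O (j + 1))
  have mK : ∀ x, x ∈ K ↔ ∀ j, x ∈ Z ∧ ∀ y ∈ O (j + 1), ⁅x, y⁆ ∈ O (j + 2) := fun x =>
    Subgroup.mem_iInf
  refine h.fit K (fun x hx => c.iZ.hi ((mK x).1 hx 0).1) (fun g hg x hx => (mK _).2 fun j =>
    ⟨c.iZ.nm s g hg x ((mK x).1 hx j).1, fun y hy => ?_⟩) ?_ ((mK z).2 fun j => ⟨hz, fun y hy =>
      by_contra fun t => ((c.ly h j).move hz hy t).elim fun v hv => hv.2 (e j v hv.1)⟩)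
  · convert s.nm _ g hg _ (((mK x).1 hx j).2 _ (s.nm _ _ ((O 0).inv_mem hg) y hy)) using 1
    simp only [commutatorElement_def]
    group
  · refine (Subgroup.nilpotent_iff_finite_descending_central_series _).2 ⟨r + 1,
      fun n => Nat.casesOn n ⊤ fun n => (O (n + 1)).subgroupOf K, ⟨rfl, fun x n hx g => ?_⟩, ?_⟩
    · cases n with
      | zero => exact c.cZ _ (c.ZA ((mK _).1 x.2 0).1) _ ((mK _).1 g.2 0).1
      | succ n => exact cm_swap (M := O (n + 2)) (((mK _).1 g.2 n).2 _ hx)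
    · simp [s.bot (r + 1) (by omega)]

/-- `B` is the centraliser of `v` in `Z` -/
def IsB (Z M : Subgroup U) (v : U) (B : Subgroup U) : Prop := ∀ z, z ∈ B ↔ z ∈ Z ∧ ⁅z, v⁆ ∈ M

/-- `C / B` is the centre of `A / B` -/
def IsA (A B C : Subgroup U) : Prop := ∀ a, a ∈ C ↔ a ∈ A ∧ ∀ b ∈ A, ⁅a, b⁆ ∈ B

theorem IsB.lo (c : Crit O R Z A) (h : Ser O r) {j : ℕ} {v : U} (hv : v ∈ O (j + 1))
    {B : Subgroup U} (b : IsB Z (O (j + 2)) v B) : O 1 ≤ B := fun x hx =>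
  (b x).2 ⟨c.iZ.lo hx, h.cen _ (by omega) x hx v hv⟩

theorem Crit.nmB (c : Crit O R Z A) {B : Subgroup U} (lo : O 1 ≤ B) (hi : B ≤ Z) : Nm A B :=
  fun a ha b hb => by simpa [commutatorElement_def] using B.mul_mem (lo (c.cZ a ha b (hi hb))) hb

theorem cg_pow {X N : Subgroup U} (n : Nm X N) {x y : U} (hx : x ∈ X) (e : Cg N x y) :
    ∀ k : ℕ, Cg N (x ^ k) (y ^ k)
  | 0 => by simpa using Cg.refl 1
  | k + 1 => by
    rw [pow_succ, pow_succ]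
    exact (cg_pow n hx e k).mul (nm_cg n hx) e

theorem solv {d l : ℕ} {Ts : List (Subgroup U)} (h : Lay O r) (rd : RD O d l R Ts)
    (c : Crit O R Z A) {D : Subgroup (FP U)} (hD : D ≤ TT O 1) (h1 : ∀ T ∈ Ts, D ≤ FxG T R)
    (h2 : ∀ j v, Gd Z (O (j + 1)) (O (j + 2)) v → ∃ B C, IsB Z (O (j + 2)) v B ∧ IsA A B C ∧
      D ≤ Keep B ∧ D ≤ FxG A C) : der 3 D ≤ FxG (O 0) (O 1) := by
  have s := h.ser
  have iR : Iv O R := ⟨rd.lo, rd.hi, rd.keep⟩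
  have s1 : D ≤ FxG (O 0) R := fun u hu => ⟨T0_keep 0 (hD hu).1, fun g hg =>
    rd.faith _ ((O 0).mul_mem ((O 0).inv_mem hg) ((kp (hD hu) 0).2 hg)) fun T hT t ht => by
      obtain ⟨c, a, b⟩ := exists_inn s hg
      obtain ⟨T', hT', e⟩ := rd.perm c a T hT
      have ht' := (rd.sub T hT).2.1 ht
      exact cm_key s (hD hu) rd.lo (iR.nm s) hg ht' ((h1 T hT hu).2 t ht)
        ((h1 T' hT' hu).2 _ (b t ht' ▸ (e t).2 ht))⟩
  have s2 : ⁅D, D⁆ ≤ FxG Z (O 1) := Subgroup.commutator_le.2 fun u hu w hw => by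
    have uw := cm_in hu hw
    have kZ := c.iZ.keep (hD uw)
    refine ⟨kZ, fun z hz => c.faith h (Z.mul_mem (Z.inv_mem hz) ((kZ z).2 hz)) fun j v hv => ?_⟩
    obtain ⟨B, -, b, -, k, -⟩ := h2 j v hv
    obtain ⟨z0, h0, e⟩ := (c.ly h j).cyc hv
    have lo := b.lo c s hv.1
    have BZ : B ≤ Z := fun x hx => ((b x).1 hx).1
    have n : Nm Z B := fun g hg => c.nmB lo BZ g (c.ZA hg)
    have e' : ∀ z ∈ Z, ∃ k : ℕ, Cg B (z0 ^ k) z := fun z hz => (e z hz).imp fun k t =>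
      (b _).2 ⟨Z.mul_mem (Z.inv_mem (Z.pow_mem h0 k)) hz, t⟩
    have key : ∀ u ∈ D, ∀ w ∈ D, ∀ a b : ℕ, Cg B (z0 ^ a) (u.app z0) → Cg B (z0 ^ b) (w.app z0) →
        Cg B (z0 ^ (a * b)) (u.app (w.app z0)) := fun u hu w hw a b ea eb => by
      rw [pow_mul]
      exact ((cg_pow n (Z.pow_mem h0 a) ea b).trans
        ((TSYL.pow_cg (s.nm 1) (hD hu) (c.iZ.hi h0) b).mono lo).symm).trans
        (cg_map (hD hu) (c.iZ.hi (Z.pow_mem h0 b)) ((kp (hD hw) 0).2 (c.iZ.hi h0)) (k hu) lo eb)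
    refine ((b _).1 ((fx_of_gen (g := [z0]) (hD uw) lo c.iZ.hi BZ n kZ (k uw) (fun z hz => ?_)
      fun x hx => ?_).2 z hz)).2
    · obtain ⟨m, t⟩ := e' z hz
      exact (t.mem_iff le_sup_left).1 (Subgroup.pow_mem _
        ((le_sup_right : gen [z0] ≤ _) (GI.mem_gen (by simp))) m)
    · obtain rfl := List.mem_singleton.1 hx
      have u' := D.inv_mem hu
      have w' := D.inv_mem hw
      obtain ⟨a, ea⟩ := e' _ ((c.iZ.keep (hD u') x).2 h0)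
      obtain ⟨b, eb⟩ := e' _ ((c.iZ.keep (hD w') x).2 h0)
      exact ⟨h0, cm_fix (hD hu) (hD hw) lo (k hu) (k hw) (c.iZ.hi h0)
        ((key _ w' _ u' b a eb ea).symm.trans (mul_comm a b ▸ key _ u' _ w' a b ea eb))⟩
  have s3 : D ≤ FxG A Z := fun u hu => ⟨c.iA.keep (hD hu), fun a ha => by
    have t := A.mul_mem (A.inv_mem ha) ((c.iA.keep (hD hu) a).2 ha)
    refine c.cen s t fun b hb => c.faith h (c.cA _ t b hb) fun j v hv => ?_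
    obtain ⟨B, C, b1, b2, -, k⟩ := h2 j v hv
    exact ((b1 _).1 (((b2 _).1 ((k hu).2 a ha)).2 b hb)).2⟩
  have ab : ∀ a ∈ Z, ∀ b ∈ Z, ⁅a, b⁆ ∈ O 1 := fun a ha => c.cZ a (c.ZA ha)
  have d1 := UP.SOLz.der_le 1 D
  have d2 := UP.SOLz.der_le 1 (der 1 D)
  have s4 := stab_two (d1.trans hD) c.iA.hi c.iZ.hi ab (d1.trans s3) s2
  refine stab_two (D := der 1 (der 1 D)) (d2.trans (d1.trans hD)) le_rfl c.iZ.hi ab
    (fun u hu => ⟨(s1 (d1 (d2 hu))).1, fun g hg => ?_⟩) (d2.trans s2)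
  exact c.cenR s iR rd.sol ((s1 (d1 (d2 hu))).2 g hg) fun a ha => cm_key s (hD (d1 (d2 hu))) le_rfl
    (s.nm 1) hg (c.iA.hi ha) ((s4 hu).2 a ha) ((s4 hu).2 _ (c.iA.nm s g hg a ha))

end Pool.Agent.P.MP_f1a348_lc.CT
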