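import Pool.Agent.P.MP_f1a348_lc.PS.Basic

/-!
Project CT: certificates for the group of triangular permutations.  Hypotheses on the series and
the program.
-/

namespace Pool.Agent.P.MP_f1a348_lc.CT

open GI (gen Cg FP Rep clo bfs tower cm)
open UP (SolvMod Nm)
open PS
open scoped commutatorElement

section
variable {U : Type} [Group U]

/-- `K / M` is a minimal normal subgroup of `G / M` -/
structure MinN (G M K : Subgroup U) : Prop where
  lt : M < K
  le : K ≤ G
  nm : Nm G K
  min : ∀ W, M ≤ W → W ≤ K → Nm G W → W ≤ M ∨ K ≤ W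

/-- semisimple layers below the Fitting subgroup `O 1` of `O 0` -/
structure Lay (O : ℕ → Subgroup U) (r : ℕ) : Prop where
  ser : Ser O r
  ss : ∀ j, 1 ≤ j → ∀ W, O (j + 1) ≤ W →
    (∀ K, MinN (O 0) (O (j + 1)) K → K ≤ O j → K ≤ W) → O j ≤ W
  fit : ∀ K, K ≤ O 0 → Nm (O 0) K → Group.IsNilpotent K → K ≤ O 1

/-- the solvable radical and the simple factors above it -/
structure RD (O : ℕ → Subgroup U) (d l : ℕ) (R : Subgroup U) (Ts : List (Subgroup U)) : Prop where
  lo : O 1 ≤ R
  hi : R ≤ O 0
  sol : SolvMod R ⊥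
  keep : TT O 1 ≤ Keep R
  len : Ts.length ≤ l
  sub : ∀ T ∈ Ts, R ≤ T ∧ T ≤ O 0 ∧ ∃ g : List U, g.length ≤ d ∧ T = R ⊔ gen g
  perm : ∀ s ∈ TT O 1, ∀ T ∈ Ts, ∃ T' ∈ Ts, ∀ x, s.app x ∈ T' ↔ x ∈ T
  faith : ∀ g ∈ O 0, (∀ T ∈ Ts, ∀ t ∈ T, ⁅g, t⁆ ∈ R) → g ∈ R

end

/-! ### the shape of the tree -/

section shape
variable {α : Type}

/-- a test: the kernels of the atoms (`true`) or the stabiliser of the set of atoms -/
abbrev Ts (α : Type) : Type := List (Bool × List α)

def kt (I : List α) : Ts α := I.map fun x => (true, [x])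
def lf (I : List α) : List α := I.take ((I.length + 1) / 2)
def rt (I : List α) : List α := I.drop ((I.length + 1) / 2)
def sp (pre : Ts α) (I : List α) : Ts α := (false, lf I) :: (false, rt I) :: pre

/-- a node: open or not, depth, tests of the kernel, tests of the group, atoms -/
abbrev It (α : Type) : Type := Bool × ℕ × Ts α × Ts α × List α

def ex (x : It α) : List (It α) :=
  bif x.1 then
    [(false, x.2.1, kt x.2.2.2.2 ++ x.2.2.2.1, sp x.2.2.2.1 x.2.2.2.2, []),
      (true, x.2.1 + 1, [], sp x.2.2.2.1 x.2.2.2.2, lf x.2.2.2.2),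
      (true, x.2.1 + 1, [], sp x.2.2.2.1 x.2.2.2.2, rt x.2.2.2.2)]
  else [x]

def fin (x : It α) : ℕ × Ts α × Ts α :=
  bif x.1 then (x.2.1, kt x.2.2.2.2 ++ x.2.2.2.1, kt x.2.2.2.2 ++ x.2.2.2.1)
  else (x.2.1, x.2.2.1, x.2.2.2.1)

def exs (I : List α) : List (It α) :=
  (fun L : List (It α) => L.flatMap ex)^[I.length.bits.length] [(true, 0, [], [], I)]

/-- the nodes of the tree over `I` in preorder -/
def nodes (I : List α) : List (ℕ × Ts α × Ts α) := (exs I).map fin

/-- remove repetitions -/
def ddp [DecidableEq α] (l : List α) : List α :=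
  l.foldl (fun t x => bif t.contains x then t else x :: t) []

end shape

/-! ### the program -/

noncomputable section
variable {U : Type} [Group U] [DecidableEq U]

/-- an atom: three subgroups -/
abbrev At (U : Type) : Type := List U × List U × List U

def toB (s : FP U) (A B : List U) : Bool :=
  (A.all fun x => B.contains (s.app x)) && B.all fun y => A.contains (s⁻¹.app y)

def mpB (s : FP U) (x y : At U) : Bool :=
  toB s x.1 y.1 && toB s x.2.1 y.2.1 && toB s x.2.2 y.2.2

def stB (s : FP U) (J : List (At U)) : Bool :=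
  (J.all fun x => J.any fun y => mpB s x y) && J.all fun y => J.any fun x => mpB s x y

def kB (s : FP U) (x : At U) : Bool :=
  mpB s x x && x.1.all fun u => x.2.1.contains (u⁻¹ * s.app u)

def tsB (t : Bool × List (At U)) (s : FP U) : Bool := bif t.1 then t.2.all (kB s) else stB s t.2

def cutP (pad : List Unit) (Gl : List U) (S : List (FP U)) (ts : Ts (At U)) : List (FP U) :=
  ((tower tsB tsB pad Gl ts 1 S).map Prod.snd).getD []

def treeP (pad : List Unit) (Gl : List U) (S : List (FP U)) (I : List (At U)) : FoG (FP U) :=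
  (nodes I).map fun r => (r.1, cutP pad Gl S r.2.1, cutP pad Gl S r.2.2)

def orbP (pad : List Unit) (S1 : List (FP U)) (g : U) : List U :=
  (bfs pad (fun s => s.app g == g) S1).map fun s => s.app g

def clP (pad : List Unit) (Gl : List U) (S1 : List (FP U)) (Y : List U) (g : U) : List U :=
  clo Gl (Y ++ orbP pad S1 g)

def cmB (A B T : List U) : Bool := A.all fun a => B.all fun b => T.contains (cm a b)

def grdS (F W T Y Y' : List U) : List U := bif cmB Y' W F && cmB Y' Y' T then Y' else Y

def grd (pad : List Unit) (Gl : List U) (S1 : List (FP U)) (F W T Rl Y0 : List U) : List U :=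
  Rl.foldl (fun Y g => grdS F W T Y (clP pad Gl S1 Y g)) Y0

def goodB (Zl L M : List U) (v : U) : Bool :=
  !M.contains v && Zl.all fun z => M.contains (cm z v) || L.any fun w => M.contains ((cm z w)⁻¹ * v)

def cenP (Zl M : List U) (v : U) : List U := Zl.filter fun z => M.contains (cm z v)

def abP (Al B : List U) : List U := Al.filter fun a => cmB [a] Al B

def layP (Zl Al L M : List U) : List (At U) :=
  (ddp ((L.filter (goodB Zl L M)).map (cenP Zl M))).map fun B => (Al, abP Al B, B)

def atQ (Os : List (List U)) (Rl : List U) (Tl : List (List U)) (Zl Al : List U) :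
    List (List (At U)) :=
  (Tl.map fun T => (T, Rl, Rl)) :: (List.range Os.length).map fun j =>
    layP Zl Al (Os.getD (j + 1) [1]) (Os.getD (j + 2) [1])

def zP (pad : List Unit) (Os : List (List U)) (Rl : List U) (S1 : List (FP U)) : List U :=
  grd pad (Os.getD 0 [1]) S1 (Os.getD 1 [1]) [] (Os.getD 1 [1]) Rl (Os.getD 1 [1])

def aP (pad : List Unit) (Os : List (List U)) (Rl : List U) (S1 : List (FP U)) (Zl : List U) :
    List U := grd pad (Os.getD 0 [1]) S1 (Os.getD 1 [1]) Zl Zl Rl Zl

/-- the lists of atoms -/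
def atP (pad : List Unit) (Os : List (List U)) (Rl : List U) (Tl : List (List U))
    (S1 : List (FP U)) : List (List (At U)) :=
  atQ Os Rl Tl (zP pad Os Rl S1) (aP pad Os Rl S1 (zP pad Os Rl S1))

/-- the certificate of the group generated by `S` -/
def cfP (pad : List Unit) (Os : List (List U)) (Rl : List U) (Tl : List (List U))
    (S1 S : List (FP U)) : FoG (FP U) :=
  (atP pad Os Rl Tl S1).flatMap (treeP pad (Os.getD 0 [1]) S)

end

/-- the specification of the certificate routine -/
def S_CERT : Prop := ∀ (U : Type) [Group U] [DecidableEq U] (O : ℕ → Subgroup U) (r d l : ℕ)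
  (R : Subgroup U) (T : List (Subgroup U)) (pad : List Unit) (Os : List (List U)) (Rl : List U)
  (Tl : List (List U)) (S1 : List (FP U)), Lay O r → RD O d l R T → Nat.card (O 0) < 2 ^ l →
  (∀ j, Rep (Os.getD j [1]) (O j)) → Rep Rl R → List.Forall₂ Rep Tl T → gen S1 = TT O 1 →
  4 ^ ((d + 20) * l) ≤ pad.length →
  Cf O 4 ((d + 20) * l) ((Os.length + 1) * (4 * l + 1)) (cfP pad Os Rl Tl S1)

end Pool.Agent.P.MP_f1a348_lc.CT
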