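import Pool.Agent.P.MP_f1a348_lc.GI.ABasic

/-!
Project CT: commuting endomorphisms of a finite abelian group.
-/

namespace Pool.Agent.P.MP_f1a348_lc.CT

open GI (gen)
open scoped commutatorElement

section gens
variable {U : Type} [Group U]

/-- few generators over a subgroup -/
theorem exists_gens_rel {X Y : Subgroup U} [Finite Y] (h : X ≤ Y) :
    ∃ g : List U, Y = X ⊔ gen g ∧ 2 ^ g.length ≤ X.relIndex Y := by
  induction hn : X.relIndex Y using Nat.strong_induction_on generalizing X with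
  | _ n ih =>
    subst hn
    have p : ∀ X : Subgroup U, X.relIndex Y ≠ 0 := fun X => Subgroup.index_ne_zero_of_finite
    by_cases e : Y ≤ X
    · exact ⟨[], by rw [GI.gen_nil, sup_bot_eq, le_antisymm e h], Nat.pos_of_ne_zero (p X)⟩
    obtain ⟨y, hy, hx⟩ := SetLike.not_le_iff_exists.1 e
    have l1 : X ⊔ gen [y] ≤ Y := sup_le h (GI.gen_le.2 (by simpa using hy))
    have m := Subgroup.relIndex_mul_relIndex X (X ⊔ gen [y]) Y le_sup_left l1
    have m1 : X.relIndex (X ⊔ gen [y]) ≠ 1 := fun e => hx (Subgroup.relIndex_eq_one.1 e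
      ((le_sup_right : gen [y] ≤ _) (GI.mem_gen (by simp))))
    have m0 : X.relIndex (X ⊔ gen [y]) ≠ 0 := fun e => p X (by rw [← m, e, zero_mul])
    have m2 : 2 * (X ⊔ gen [y]).relIndex Y ≤ X.relIndex Y := by
      rw [← m]
      exact Nat.mul_le_mul_right _ (by omega)
    have := p (X ⊔ gen [y])
    obtain ⟨g, e1, e2⟩ := ih _ (by omega) l1 rfl
    refine ⟨y :: g, ?_, ?_⟩
    · rw [e1, sup_assoc, ← GI.gen_append]
      rfl
    · rw [List.length_cons, pow_succ]
      omega

end gens

variable {V : Type} [AddCommGroup V] [Finite V]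

theorem two_pow_le {ι W : Type} [Fintype ι] [Finite W] (f : Finset ι → W)
    (h : Function.Injective f) : 2 ^ Fintype.card ι ≤ Nat.card W := by
  simpa using Nat.card_le_card_of_injective f h

instance : Finite (Module.End ℤ V) := Finite.of_injective _ DFunLike.coe_injective

theorem card_end_le {l : ℕ} (h : Nat.card V < 2 ^ l) : Nat.card (Module.End ℤ V) ≤ 2 ^ (l * l) := by
  obtain ⟨g, e1, e2⟩ := exists_gens_rel (bot_le : (⊥ : Subgroup (Multiplicative V)) ≤ ⊤)
  rw [Subgroup.relIndex_top_right, Subgroup.index_bot] at e2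
  have e3 : g.length ≤ l := (Nat.pow_lt_pow_iff_right one_lt_two).1 (e2.trans_lt h) |>.le
  have := Nat.card_le_card_of_injective
    (fun (X : Module.End ℤ V) (i : Fin g.length) => X g[i].toAdd) fun X Y e => by
      ext v
      have hv : Multiplicative.ofAdd v ∈ gen g := by
        rw [bot_sup_eq] at e1
        exact e1 ▸ Subgroup.mem_top _
      refine GI.gen_le (Z := X.toAddMonoidHom.toMultiplicative.eqLocus
        Y.toAddMonoidHom.toMultiplicative) |>.2 (fun x hx => ?_) hv
      obtain ⟨i, hi, rfl⟩ := List.getElem_of_mem hx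
      exact congrFun e ⟨i, hi⟩
  refine this.trans ?_
  rw [Nat.card_fun, Nat.card_eq_fintype_card (α := Fin _), Fintype.card_fin, pow_mul]
  exact (Nat.pow_le_pow_left h.le _).trans (Nat.pow_le_pow_right (by positivity) e3)

/-- an endomorphism that is onto on its range is injective there -/
theorem fit_of_split {x : Module.End ℤ V} (h : ∀ w, ∃ a u, x a = 0 ∧ w = a + x u) (w : V)
    (hw : x (x w) = 0) : x w = 0 := by
  let f : LinearMap.range x → LinearMap.range x := fun u => ⟨x u, u, rfl⟩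
  have hf : Function.Surjective f := by
    rintro ⟨_, w, rfl⟩
    obtain ⟨a, u, h1, rfl⟩ := h w
    exact ⟨⟨x u, u, rfl⟩, Subtype.ext (by simp [f, h1])⟩
  exact congrArg Subtype.val (Finite.injective_iff_surjective.2 hf (a₁ := ⟨x w, w, rfl⟩) (a₂ := 0)
    (Subtype.ext (by simpa [f] using hw)))

theorem per {x : Module.End ℤ V} (h : ∀ w, x (x w) = 0 → x w = 0) (u : V) :
    ∃ k, (x ^ (k + 1)) (x u) = x u := by
  have c : ∀ a w, (x ^ a) (x w) = 0 → x w = 0 := fun a => by
    induction a with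
    | zero => simp
    | succ a ih => exact fun w e => h w (ih (x w) (by simpa [pow_succ] using e))
  have d : ∀ a b, a < b → (x ^ a) (x u) = (x ^ b) (x u) → ∃ k, (x ^ (k + 1)) (x u) = x u :=
    fun a b hab e => by
      obtain ⟨k, rfl⟩ := Nat.exists_eq_add_of_lt hab
      have e1 : (x ^ (k + 1)) (x u) = x ((x ^ (k + 1)) u) := by
        rw [← Module.End.mul_apply, ← pow_succ, pow_succ' x (k + 1), Module.End.mul_apply]
      refine ⟨k, sub_eq_zero.1 ?_⟩
      rw [e1, ← map_sub]
      refine c a _ ?_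
      rw [map_sub, map_sub, ← e1, e, ← Module.End.mul_apply, ← pow_add, add_assoc, sub_self]
  obtain ⟨a, b, hab, e⟩ := Finite.exists_ne_map_eq_of_infinite fun n : ℕ => (x ^ n) (x u)
  exact (lt_or_gt_of_ne hab).elim (fun t => d a b t e) fun t => d b a t e.symm

theorem greedy {X : Set (Module.End ℤ V)} (hc : ∀ x ∈ X, ∀ y ∈ X, x * y = y * x) {W : V → Prop}
    (hW : ∀ x ∈ X, ∀ w, W w → W (x w)) {w : V} (hw : W w) (h0 : w ≠ 0) :
    ∃ v, W v ∧ v ≠ 0 ∧ ∀ x ∈ X, x v = 0 ∨ ∃ u, x u = v := by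
  have hX := X.toFinite
  induction X, hX using Set.Finite.induction_on with
  | empty => exact ⟨w, hw, h0, by simp⟩
  | @insert y X _ _ ih =>
    obtain ⟨v, h1, h2, h3⟩ := ih (fun a ha b hb => hc a (Or.inr ha) b (Or.inr hb))
      fun a ha => hW a (Or.inr ha)
    by_cases e : y v = 0
    · exact ⟨v, h1, h2, fun x hx => hx.elim (fun t => Or.inl (t ▸ e)) (h3 x)⟩
    refine ⟨y v, hW y (Or.inl rfl) v h1, e, fun x hx => hx.elim (fun t => Or.inr ⟨v, t ▸ rfl⟩)
      fun hx => ?_⟩
    have c : ∀ u, x (y u) = y (x u) := fun u =>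
      LinearMap.congr_fun (hc x (Or.inr hx) y (Or.inl rfl)) u
    exact (h3 x hx).imp (fun t => by rw [c, t, map_zero]) fun ⟨u, t⟩ => ⟨y u, by rw [c, t]⟩

omit [Finite V] in
/-- separated vectors have different subset sums -/
theorem sep_inj {ι : Type} [Fintype ι] (v : ι → V) (h0 : ∀ i, v i ≠ 0)
    (S : Subring (Module.End ℤ V)) (hc : ∀ x ∈ S, ∀ y ∈ S, x * y = y * x)
    (h : ∀ i j, i ≠ j → ∃ e ∈ S, e (v i) = v i ∧ e (v j) = 0) :
    Function.Injective fun s : Finset ι => ∑ i ∈ s, v i := by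
  classical
  have a : ∀ i (s : Finset ι), i ∉ s → ∃ e ∈ S, e (v i) = v i ∧ ∀ j ∈ s, e (v j) = 0 :=
    fun i s => by
      induction s using Finset.induction_on with
      | empty => exact fun _ => ⟨1, S.one_mem, rfl, by simp⟩
      | insert j s _ ih =>
        intro hi
        rw [Finset.mem_insert, not_or] at hi
        obtain ⟨e, h1, h2, h3⟩ := ih hi.2
        obtain ⟨e', a1, a2, a3⟩ := h i j hi.1
        refine ⟨e * e', S.mul_mem h1 a1, by simp [a2, h2], fun k hk => ?_⟩
        rcases Finset.mem_insert.1 hk with rfl | hk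
        · simp [a3]
        · simp [hc e h1 e' a1, h3 k hk]
  have b : ∀ s t : Finset ι, ∑ i ∈ s, v i = ∑ i ∈ t, v i → s ⊆ t := fun s t e i hi => by
    obtain ⟨x, -, h2, h3⟩ := a i (Finset.univ.erase i) (by simp)
    by_contra hn
    have := congrArg x e
    rw [map_sum, map_sum, Finset.sum_eq_single_of_mem i hi fun j _ t => h3 j (by simp [t]), h2,
      Finset.sum_eq_zero fun j hj => h3 j (by simpa using fun t : j = i => hn (t ▸ hj))] at this
    exact h0 i this
  exact fun s t e => Finset.Subset.antisymm (b s t e) (b t s e.symm)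

omit [Finite V] in
/-- a commutative ring of endomorphisms that contains a given commuting set -/
theorem exists_ring {X : Set (Module.End ℤ V)} (hc : ∀ x ∈ X, ∀ y ∈ X, x * y = y * x) :
    ∃ S : Subring (Module.End ℤ V), (∀ x ∈ X, x ∈ S) ∧ (∀ x ∈ S, ∀ y ∈ S, x * y = y * x) ∧
      ∀ y, (∀ x ∈ X, x * y = y * x) → ∀ x ∈ S, y * x = x * y :=
  ⟨Subring.centralizer (Subring.centralizer X), fun x hx y hy => (hy x hx).symm,
    fun x hx y hy => hy x fun z hz => hx z fun t ht => hc t ht z hz, fun y hy x hx => hx y hy⟩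

end Pool.Agent.P.MP_f1a348_lc.CT
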