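import Pool.Agent.P.MP_f1a348_lc.CT.Defs
import Pool.Agent.P.MP_f1a348_lc.CT.Lin
import Pool.Agent.P.MP_f1a348_lc.PS.TSYL

/-!
Project CT: good vectors of a semisimple layer and their centralisers.
-/

namespace Pool.Agent.P.MP_f1a348_lc.CT

open GI (gen Cg)
open UP (Nm)
open PS
open scoped commutatorElement

variable {U : Type} [Group U]

/-- the elements of `X` that centralise `Y` modulo `M` -/
def Cn {X M : Subgroup U} (h : Nm X M) (Y : Set U) : Subgroup U where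
  carrier := {x | x ∈ X ∧ ∀ y ∈ Y, ⁅x, y⁆ ∈ M}
  one_mem' := ⟨X.one_mem, fun y _ => by simp⟩
  mul_mem' {a b} ha hb := ⟨X.mul_mem ha.1 hb.1, fun y hy => by
    convert M.mul_mem (h a ha.1 _ (hb.2 y hy)) (ha.2 y hy) using 1
    simp only [commutatorElement_def]
    group⟩
  inv_mem' {a} ha := ⟨X.inv_mem ha.1, fun y hy => by
    convert h _ (X.inv_mem ha.1) _ (M.inv_mem (ha.2 y hy)) using 1
    simp only [commutatorElement_def]
    group⟩

theorem mem_Cn {X M : Subgroup U} {h : Nm X M} {Y : Set U} {x : U} :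
    x ∈ Cn h Y ↔ x ∈ X ∧ ∀ y ∈ Y, ⁅x, y⁆ ∈ M := Iff.rfl

theorem cm_mem {G L : Subgroup U} (h : Nm G L) {g x : U} (hg : g ∈ G) (hx : x ∈ L) : ⁅g, x⁆ ∈ L :=
  L.mul_mem (h g hg x hx) (L.inv_mem hx)

theorem cm_swap {M : Subgroup U} {a b : U} (h : ⁅a, b⁆ ∈ M) : ⁅b, a⁆ ∈ M := by
  simpa using M.inv_mem h

/-- good elements of the layer `L / M` -/
def Gd (Z L M : Subgroup U) (v : U) : Prop :=
  v ∈ L ∧ v ∉ M ∧ ∀ z ∈ Z, ⁅z, v⁆ ∈ M ∨ ∃ w ∈ L, ⁅z, w⁆⁻¹ * v ∈ M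

/-- a semisimple layer and two subgroups that act on it -/
structure LY (G L M Z A : Subgroup U) : Prop where
  fin : Finite G
  ML : M ≤ L
  LG : L ≤ G
  nL : Nm G L
  nM : Nm G M
  ab : ∀ x ∈ L, ∀ y ∈ L, ⁅x, y⁆ ∈ M
  ss : ∀ W, M ≤ W → (∀ K, MinN G M K → K ≤ L → K ≤ W) → L ≤ W
  ZA : Z ≤ A
  AG : A ≤ G
  nZ : Nm G Z
  cZ : ∀ a ∈ A, ∀ z ∈ Z, ∀ y ∈ L, ⁅⁅a, z⁆, y⁆ ∈ M
  cA : ∀ a ∈ A, ∀ b ∈ A, ⁅a, b⁆ ∈ Z

/-- the layer as an additive group with an action -/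
structure LD (G L M : Subgroup U) {V : Type} [AddCommGroup V] (q : U → V)
    (ρ : U → Module.End ℤ V) : Prop where
  add : ∀ x ∈ L, ∀ y ∈ L, q (x * y) = q x + q y
  ker : ∀ x ∈ L, q x = 0 ↔ x ∈ M
  sur : ∀ v, ∃ x ∈ L, q x = v
  cj : ∀ g ∈ G, ∀ x ∈ L, ρ g (q x) = q (g * x * g⁻¹)

variable {G L M Z A : Subgroup U}

theorem LY.exists (h : LY G L M Z A) : ∃ (V : Type) (_ : AddCommGroup V) (_ : Finite V) (q : U → V)
    (ρ : U → Module.End ℤ V), LD G L M q ρ ∧ Nat.card V ≤ Nat.card G := by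
  classical
  have := h.fin
  have : Finite L := GI.finite_of_le h.LG
  have hN := TSYL.normal (Y := L) (O := M) fun g hg => h.nM g (h.LG hg)
  let _ : CommGroup (L ⧸ M.subgroupOf L) :=
    { (inferInstance : Group (L ⧸ M.subgroupOf L)) with
      mul_comm := fun a b => by
        obtain ⟨x, rfl⟩ := QuotientGroup.mk_surjective a
        obtain ⟨y, rfl⟩ := QuotientGroup.mk_surjective b
        rw [← QuotientGroup.mk_mul, ← QuotientGroup.mk_mul, QuotientGroup.eq]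
        exact cg_comm (h.ab _ (L.inv_mem y.2) _ (L.inv_mem x.2)) }
  let c : G → L →* L := fun g => MonoidHom.mk' (fun x => ⟨g * x * g⁻¹, h.nL g g.2 x x.2⟩)
    fun a b => Subtype.ext (by simp)
  refine ⟨Additive (L ⧸ M.subgroupOf L), inferInstance, inferInstance,
    fun u => if h : u ∈ L then Additive.ofMul (QuotientGroup.mk ⟨u, h⟩) else 0,
    fun g => if hg : g ∈ G then (QuotientGroup.map (M.subgroupOf L) (M.subgroupOf L) (c ⟨g, hg⟩)
      fun x hx => h.nM g hg x hx).toAdditive.toIntLinearMap else 0, ⟨fun x hx y hy => ?_,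
      fun x hx => ?_, fun m => ?_, fun g hg x hx => ?_⟩, ?_⟩
  · rw [dif_pos hx, dif_pos hy, dif_pos (L.mul_mem hx hy), ← ofMul_mul, ← QuotientGroup.mk_mul]
    rfl
  · rw [dif_pos hx, ofMul_eq_zero, QuotientGroup.eq_one_iff, Subgroup.mem_subgroupOf]
  · obtain ⟨y, hy⟩ := QuotientGroup.mk_surjective (Additive.toMul m)
    exact ⟨y, y.2, by rw [dif_pos y.2]; exact congrArg Additive.ofMul hy⟩
  · rw [dif_pos hg, dif_pos hx, dif_pos (h.nL g hg x hx)]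
    rfl
  · exact (Nat.card_le_card_of_surjective _ QuotientGroup.mk_surjective).trans
      (Subgroup.card_le_of_le h.LG)

section
variable {V : Type} [AddCommGroup V] {q : U → V} {ρ : U → Module.End ℤ V}

theorem LD.inv (d : LD G L M q ρ) {x : U} (hx : x ∈ L) : q x⁻¹ = -q x := by
  have := d.add _ (L.inv_mem hx) _ hx
  rw [inv_mul_cancel, (d.ker 1 L.one_mem).2 M.one_mem] at this
  exact eq_neg_of_add_eq_zero_left this.symm

theorem LD.one (d : LD G L M q ρ) : ρ 1 = 1 := by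
  ext v
  obtain ⟨x, hx, rfl⟩ := d.sur v
  simp [d.cj 1 G.one_mem x hx]

theorem LD.mul (d : LD G L M q ρ) (h : Nm G L) {a b : U} (ha : a ∈ G) (hb : b ∈ G) :
    ρ (a * b) = ρ a * ρ b := by
  ext v
  obtain ⟨x, hx, rfl⟩ := d.sur v
  rw [Module.End.mul_apply, d.cj _ (G.mul_mem ha hb) x hx, d.cj b hb x hx, d.cj a ha _ (h b hb x hx)]
  congr 1
  group

theorem LD.cm (d : LD G L M q ρ) (h : Nm G L) {g x : U} (hg : g ∈ G) (hx : x ∈ L) :
    q ⁅g, x⁆ = (ρ g - 1) (q x) := by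
  rw [commutatorElement_def, d.add _ (h g hg x hx) _ (L.inv_mem hx), d.inv hx, ← d.cj g hg x hx]
  simp [sub_eq_add_neg]

theorem LD.fix (d : LD G L M q ρ) (h : Nm G L) {g x : U} (hg : g ∈ G) (hx : x ∈ L) :
    ⁅g, x⁆ ∈ M ↔ (ρ g - 1) (q x) = 0 := by rw [← d.cm h hg hx, d.ker _ (cm_mem h hg hx)]

theorem LD.gd (d : LD G L M q ρ) (h : LY G L M Z A) {v : U} (hv : v ∈ L) : Gd Z L M v ↔
    q v ≠ 0 ∧ ∀ z ∈ Z, (ρ z - 1) (q v) = 0 ∨ ∃ u, (ρ z - 1) u = q v := by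
  rw [Gd, and_iff_right hv, Ne, d.ker v hv]
  refine and_congr_right fun _ => forall₂_congr fun z hz => ?_
  have hz' := h.AG (h.ZA hz)
  have e : ∀ w ∈ L, ⁅z, w⁆⁻¹ * v ∈ M ↔ (ρ z - 1) (q w) = q v := fun w hw => by
    have t := cm_mem h.nL hz' hw
    rw [← d.ker _ (L.mul_mem (L.inv_mem t) hv), d.add _ (L.inv_mem t) _ hv, d.inv t,
      neg_add_eq_zero, d.cm h.nL hz' hw]
  refine or_congr (d.fix h.nL hz' hv) ⟨fun ⟨w, hw, t⟩ => ⟨_, (e w hw).1 t⟩, fun ⟨u, t⟩ => ?_⟩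
  obtain ⟨w, hw, rfl⟩ := d.sur u
  exact ⟨w, hw, (e w hw).2 t⟩

theorem LD.rel (d : LD G L M q ρ) (h : Nm G L) {a b : U} (ha : a ∈ G) (hb : b ∈ G) :
    ρ a * ρ b = ρ ⁅a, b⁆ * (ρ b * ρ a) := by
  rw [← d.mul h ha hb, ← d.mul h hb ha, ← d.mul h (cm_mem (fun _ s _ t => G.mul_mem
    (G.mul_mem s t) (G.inv_mem s)) ha hb) (G.mul_mem hb ha)]
  simp [commutatorElement_def]

theorem LD.com (d : LD G L M q ρ) (h : LY G L M Z A) {a z : U} (ha : a ∈ A) (hz : z ∈ Z) :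
    ρ a * ρ z = ρ z * ρ a := by
  have e : ρ ⁅a, z⁆ = 1 := by
    ext v
    obtain ⟨x, hx, rfl⟩ := d.sur v
    exact sub_eq_zero.1 ((d.fix h.nL (h.AG (h.ZA (h.cA a ha z (h.ZA hz)))) hx).1 (h.cZ a ha z hz x hx))
  rw [d.rel h.nL (h.AG ha) (h.AG (h.ZA hz)), e, one_mul]

theorem LD.ring (d : LD G L M q ρ) (h : LY G L M Z A) : ∃ S : Subring (Module.End ℤ V),
    (∀ z ∈ Z, ρ z ∈ S) ∧ (∀ x ∈ S, ∀ y ∈ S, x * y = y * x) ∧ ∀ a ∈ A, ∀ x ∈ S, ρ a * x = x * ρ a := by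
  obtain ⟨S, h1, h2, h3⟩ := exists_ring (X := ρ '' Z) (by
    rintro _ ⟨x, hx, rfl⟩ _ ⟨y, hy, rfl⟩
    exact d.com h (h.ZA hx) hy)
  exact ⟨S, fun z hz => h1 _ ⟨z, hz, rfl⟩, h2, fun a ha => h3 _ (by
    rintro _ ⟨x, hx, rfl⟩
    exact (d.com h ha hx).symm)⟩

variable [Finite V]

theorem LD.greedy (d : LD G L M q ρ) (h : LY G L M Z A) {W : V → Prop}
    (hW : ∀ z ∈ Z, ∀ w, W w → W ((ρ z - 1) w)) {w : V} (hw : W w) (h0 : w ≠ 0) :
    ∃ v, W v ∧ v ≠ 0 ∧ ∀ z ∈ Z, (ρ z - 1) v = 0 ∨ ∃ u, (ρ z - 1) u = v := by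
  obtain ⟨S, h1, h2, -⟩ := d.ring h
  obtain ⟨v, a, b, c⟩ := CT.greedy (X := (fun z => ρ z - 1) '' Z) (W := W) (by
    rintro _ ⟨x, hx, rfl⟩ _ ⟨y, hy, rfl⟩
    exact h2 _ (S.sub_mem (h1 x hx) S.one_mem) _ (S.sub_mem (h1 y hy) S.one_mem)) (by
    rintro _ ⟨x, hx, rfl⟩
    exact hW x hx) hw h0
  exact ⟨v, a, b, fun z hz => c _ ⟨z, hz, rfl⟩⟩

/-- the elements of `Z` act semisimply -/
theorem LD.fit (d : LD G L M q ρ) (h : LY G L M Z A) {z : U} (hz : z ∈ Z) :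
    ∀ w, (ρ z - 1) ((ρ z - 1) w) = 0 → (ρ z - 1) w = 0 := by
  have ZG := h.ZA.trans h.AG
  let P : Submodule ℤ V := ⨅ z ∈ Z, LinearMap.ker (ρ z - 1) ⊔ LinearMap.range (ρ z - 1)
  have mP : ∀ v, v ∈ P ↔ ∀ z ∈ Z, ∃ a u, (ρ z - 1) a = 0 ∧ v = a + (ρ z - 1) u := fun v => by
    simp only [P, Submodule.mem_iInf, Submodule.mem_sup, LinearMap.mem_ker, LinearMap.mem_range]
    exact forall₂_congr fun z _ => ⟨fun ⟨a, t, _, ⟨u, rfl⟩, e⟩ => ⟨a, u, t, e.symm⟩,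
      fun ⟨a, u, t, e⟩ => ⟨a, t, _, ⟨u, rfl⟩, e.symm⟩⟩
  let W : Subgroup U :=
    { carrier := {x | x ∈ L ∧ q x ∈ P}
      one_mem' := ⟨L.one_mem, (d.ker 1 L.one_mem).2 M.one_mem ▸ P.zero_mem⟩
      mul_mem' := fun a b => ⟨L.mul_mem a.1 b.1, d.add _ a.1 _ b.1 ▸ P.add_mem a.2 b.2⟩
      inv_mem' := fun a => ⟨L.inv_mem a.1, d.inv a.1 ▸ P.neg_mem a.2⟩ }
  have MW : M ≤ W := fun x hx => ⟨h.ML hx, (d.ker x (h.ML hx)).2 hx ▸ P.zero_mem⟩
  have nW : Nm G W := fun g hg x hx => ⟨h.nL g hg x hx.1, (mP _).2 fun z hz => by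
    have hz' : g⁻¹ * z * g ∈ Z := by simpa using h.nZ _ (G.inv_mem hg) z hz
    obtain ⟨a, u, t, e⟩ := (mP _).1 hx.2 _ hz'
    have c : (ρ z - 1) * ρ g = ρ g * (ρ (g⁻¹ * z * g) - 1) := by
      rw [sub_mul, mul_sub, ← d.mul h.nL hg (ZG hz'), ← d.mul h.nL (ZG hz) hg]
      simp [mul_assoc]
    refine ⟨ρ g a, ρ g u, ?_, ?_⟩
    · rw [← Module.End.mul_apply, c, Module.End.mul_apply, t, map_zero]
    · rw [← d.cj g hg x hx.1, e, map_add, ← Module.End.mul_apply (ρ z - 1), c, Module.End.mul_apply]⟩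
  have LW := h.ss W MW fun K hK KL => by
    obtain ⟨x, hx, hx'⟩ := SetLike.exists_of_lt hK.lt
    obtain ⟨_, ⟨y, hy, rfl⟩, b, c⟩ := d.greedy h (W := fun v => ∃ x ∈ K, q x = v) (by
      rintro z hz _ ⟨y, hy, rfl⟩
      exact ⟨_, cm_mem hK.nm (ZG hz) hy, d.cm h.nL (ZG hz) (KL hy)⟩) ⟨x, hx, rfl⟩
      (mt (d.ker x (KL hx)).1 hx')
    refine (hK.min (K ⊓ W) (le_inf hK.lt.le MW) inf_le_left fun g hg x hx =>
      ⟨hK.nm g hg x hx.1, nW g hg x hx.2⟩).elim (fun t => absurd ?_ b) fun t => t.trans inf_le_right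
    refine (d.ker y (KL hy)).2 (t ⟨hy, KL hy, (mP _).2 fun z hz => ?_⟩)
    exact (c z hz).elim (fun e => ⟨_, 0, e, by simp⟩) fun ⟨u, e⟩ => ⟨0, u, by simp, by simp [e]⟩
  refine fit_of_split fun w => ?_
  obtain ⟨x, hx, rfl⟩ := d.sur w
  exact (mP _).1 (LW hx).2 z hz

theorem LD.per (d : LD G L M q ρ) (h : LY G L M Z A) {v z : U} (hv : Gd Z L M v) (hz : z ∈ Z)
    (hn : (ρ z - 1) (q v) ≠ 0) : ∃ k : ℕ, ((ρ z - 1) ^ (k + 1) : Module.End ℤ V) (q v) = q v := by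
  obtain ⟨u, e⟩ := (((d.gd h hv.1).1 hv).2 z hz).resolve_left hn
  rw [← e]
  exact CT.per (d.fit h hz) u

end

/-- an element that moves the layer moves a good element -/
theorem LY.move (h : LY G L M Z A) {z w : U} (hz : z ∈ Z) (hw : w ∈ L) (hn : ⁅z, w⁆ ∉ M) :
    ∃ v, Gd Z L M v ∧ ⁅z, v⁆ ∉ M := by
  obtain ⟨V, _, _, q, ρ, d, -⟩ := h.exists
  obtain ⟨S, h1, h2, -⟩ := d.ring h
  have hz' := h.AG (h.ZA hz)
  obtain ⟨_, ⟨u, rfl⟩, b, c⟩ := d.greedy h (W := fun v => ∃ u, (ρ z - 1) u = v) (by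
    rintro y hy _ ⟨u, rfl⟩
    exact ⟨_, LinearMap.congr_fun (h2 _ (S.sub_mem (h1 z hz) S.one_mem) _
      (S.sub_mem (h1 y hy) S.one_mem)) u⟩) ⟨_, rfl⟩ (mt (d.fix h.nL hz' hw).2 hn)
  obtain ⟨v, hv, e⟩ := d.sur ((ρ z - 1) u)
  refine ⟨v, (d.gd h hv).2 (e ▸ ⟨b, c⟩), fun t => b (d.fit h hz u ?_)⟩
  rw [← e]
  exact (d.fix h.nL hz' hv).1 t

/-- there are few centralisers of good elements -/
theorem LY.count (h : LY G L M Z A) {vs : List U} (hg : ∀ v ∈ vs, Gd Z L M v)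
    (hp : vs.Pairwise fun v w => ¬ ∀ z ∈ Z, ⁅z, v⁆ ∈ M ↔ ⁅z, w⁆ ∈ M) :
    2 ^ vs.length ≤ Nat.card G := by
  obtain ⟨V, _, _, q, ρ, d, hc⟩ := h.exists
  obtain ⟨S, h1, h2, -⟩ := d.ring h
  have key : ∀ v w, Gd Z L M v → Gd Z L M w → ∀ z ∈ Z, ⁅z, v⁆ ∈ M → ⁅z, w⁆ ∉ M →
      ∃ e ∈ S, e (q v) = 0 ∧ e (q w) = q w := fun v w hv hw z hz a b => by
    have hz' := h.AG (h.ZA hz)
    obtain ⟨k, e⟩ := d.per h hw hz (mt (d.fix h.nL hz' hw.1).2 b)
    exact ⟨_, S.pow_mem (S.sub_mem (h1 z hz) S.one_mem) (k + 1), by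
      rw [pow_succ, Module.End.mul_apply, (d.fix h.nL hz' hv.1).1 a, map_zero], e⟩
  have g : ∀ i : Fin vs.length, Gd Z L M vs[i] := fun i => hg _ (List.getElem_mem _)
  have := two_pow_le _ (sep_inj (fun i : Fin vs.length => q vs[i])
    (fun i => ((d.gd h (g i).1).1 (g i)).1) S h2 fun i j hij => by
      have t : ¬ ∀ z ∈ Z, ⁅z, vs[i]⁆ ∈ M ↔ ⁅z, vs[j]⁆ ∈ M := by
        rcases lt_or_gt_of_ne hij with t | t
        · exact List.pairwise_iff_getElem.1 hp i j i.2 j.2 t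
        · exact fun e => List.pairwise_iff_getElem.1 hp j i j.2 i.2 t fun z hz => (e z hz).symm
      push Not at t
      obtain ⟨z, hz, ⟨a, b⟩ | ⟨a, b⟩⟩ := t
      · obtain ⟨e, e1, e2, e3⟩ := key _ _ (g i) (g j) z hz a b
        exact ⟨1 - e, S.sub_mem S.one_mem e1, sub_eq_self.2 e2, sub_eq_zero.2 e3.symm⟩
      · obtain ⟨e, e1, e2, e3⟩ := key _ _ (g j) (g i) z hz b a
        exact ⟨e, e1, e3, e2⟩)
  rw [Fintype.card_fin] at this
  exact this.trans hc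

/-- `Z` acts on a good element through a cyclic group -/
theorem LY.cyc (h : LY G L M Z A) {v : U} (hv : Gd Z L M v) :
    ∃ z0 ∈ Z, ∀ z ∈ Z, ∃ k : ℕ, ⁅(z0 ^ k)⁻¹ * z, v⁆ ∈ M := by
  classical
  obtain ⟨V, _, _, q, ρ, d, -⟩ := h.exists
  obtain ⟨S, h1, h2, -⟩ := d.ring h
  have ZG := h.ZA.trans h.AG
  let _ : CommRing S := { (inferInstance : Ring S) with
    mul_comm := fun a b => Subtype.ext (h2 _ a.2 _ b.2) }
  let I : Ideal S :=
    { carrier := {e | e.1 (q v) = 0}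
      zero_mem' := rfl
      add_mem' := fun {a b} (s : a.1 _ = _) (t : b.1 _ = _) => show a.1 _ + b.1 _ = _ by simp [s, t]
      smul_mem' := fun c a (s : a.1 _ = _) => show c.1 (a.1 _) = _ by simp [s] }
  obtain ⟨P, hP, IP⟩ := Ideal.exists_le_maximal I
    ((Ideal.ne_top_iff_one I).2 ((d.gd h hv.1).1 hv).1)
  let f0 : Z →* S :=
    { toFun := fun z => ⟨ρ z, h1 z z.2⟩
      map_one' := Subtype.ext d.one
      map_mul' := fun a b => Subtype.ext (d.mul h.nL (ZG a.2) (ZG b.2)) }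
  let f : Z →* S ⧸ P := (Ideal.Quotient.mk P).toMonoidHom.comp f0
  have := h.fin
  have : Finite Z := GI.finite_of_le (W := G) ZG
  have := Finite.of_surjective _ f.toHomUnits.rangeRestrict_surjective
  obtain ⟨⟨_, z0, rfl⟩, hg⟩ := IsCyclic.exists_monoid_generator (α := f.toHomUnits.range)
  refine ⟨z0, z0.2, fun z hz => ?_⟩
  obtain ⟨k, e⟩ := hg ⟨_, ⟨z, hz⟩, rfl⟩
  have e0 : f.toHomUnits z0 ^ k = f.toHomUnits ⟨z, hz⟩ := congrArg Subtype.val e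
  have e1 : f ((z0 ^ k)⁻¹ * ⟨z, hz⟩) = 1 := by
    rw [← f.coe_toHomUnits, map_mul, map_inv, map_pow, e0, inv_mul_cancel, Units.val_one]
  set y := (z0 ^ k)⁻¹ * ⟨z, hz⟩
  refine ⟨k, (d.fix h.nL (ZG y.2) hv.1).2 (by_contra fun t => hP.ne_top ?_)⟩
  obtain ⟨n, e2⟩ := d.per h hv y.2 t
  have a : f0 y - 1 ∈ P := Ideal.Quotient.eq.1 e1
  have b : 1 - (f0 y - 1) ^ (n + 1) ∈ P := IP (sub_eq_zero.2 e2.symm)
  simpa [Ideal.eq_top_iff_one] using P.add_mem b (P.pow_mem_of_mem a _ n.succ_pos)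

/-- the index of the centraliser of `A` modulo the centraliser of a good element -/
theorem LY.ind (h : LY G L M Z A) {v : U} (hv : Gd Z L M v) {l : ℕ} (hl : Nat.card G < 2 ^ l)
    {C : Subgroup U} (hC : ∀ a ∈ A, (∀ b ∈ A, ⁅⁅a, b⁆, v⁆ ∈ M) → a ∈ C) : C.relIndex A ≤ l * l := by
  classical
  obtain ⟨V, _, _, q, ρ, d, hc⟩ := h.exists
  obtain ⟨S, h1, h2, h3⟩ := d.ring h
  have ZG := h.ZA.trans h.AG
  have := h.fin
  have : Finite A := GI.finite_of_le h.AG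
  have := Fintype.ofFinite (A ⧸ C.subgroupOf A)
  let a : A ⧸ C.subgroupOf A → U := fun i => i.out
  have ha : ∀ i, a i ∈ A := fun i => i.out.2
  have c3 : ∀ b ∈ A, ∀ x ∈ S, ∀ w, ρ b (x w) = x (ρ b w) := fun b hb x hx =>
    LinearMap.congr_fun (h3 b hb x hx)
  have c2 : ∀ y ∈ S, ∀ x ∈ S, ∀ w, y (x w) = x (y w) := fun b hb x hx =>
    LinearMap.congr_fun (h2 b hb x hx)
  have iv : ∀ g ∈ G, ∀ w, ρ g⁻¹ (ρ g w) = w := fun g hg w => by
    rw [← Module.End.mul_apply, ← d.mul h.nL (G.inv_mem hg) hg, inv_mul_cancel, d.one]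
    rfl
  have sep : ∀ i j, i ≠ j → ∃ b ∈ A, ∃ e ∈ S, e ((ρ ⁅b, a i⁆ - ρ ⁅b, a j⁆) (q v)) = q v :=
    fun i j hij => by
      have t := A.mul_mem (A.inv_mem (ha j)) (ha i)
      obtain ⟨b, hb, hn⟩ : ∃ b ∈ A, ⁅⁅(a j)⁻¹ * a i, b⁆, v⁆ ∉ M := by
        by_contra! e
        refine hij (Eq.symm ?_)
        rw [← i.out_eq, ← j.out_eq]
        exact QuotientGroup.eq.2 (hC _ t e)
      have z := h.cA b hb _ t
      have zj := h.cA b hb _ (ha j)
      obtain ⟨k, e⟩ := d.per h hv z fun e => hn (by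
        simpa using ((Cn (fun g hg => h.nM g (ZG hg)) {v}).inv_mem (x := ⁅b, (a j)⁻¹ * a i⁆)
          ⟨z, by simpa using (d.fix h.nL (ZG z) hv.1).2 e⟩).2 v rfl)
      refine ⟨b, hb, _, S.mul_mem (S.pow_mem (S.sub_mem (h1 _ z) S.one_mem) k)
        (h1 _ (Z.inv_mem zj)), ?_⟩
      have e1 : ρ ⁅b, a i⁆ = ρ ⁅b, a j⁆ * ρ ⁅b, (a j)⁻¹ * a i⁆ := by
        have e2 : ⁅b, a i⁆ = ⁅b, a j⁆ * (a j * ⁅b, (a j)⁻¹ * a i⁆ * (a j)⁻¹) := by
          simp only [commutatorElement_def]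
          group
        have g := h.AG (ha j)
        rw [e2, d.mul h.nL (ZG zj) (ZG (h.nZ _ g _ z)), d.mul h.nL (G.mul_mem g (ZG z)) (G.inv_mem g),
          d.mul h.nL g (ZG z), d.com h (ha j) z, mul_assoc, ← d.mul h.nL g (G.inv_mem g),
          mul_inv_cancel, d.one, mul_one]
      rw [e1, ← mul_sub_one, Module.End.mul_apply, Module.End.mul_apply, iv _ (ZG zj),
        ← Module.End.mul_apply, ← pow_succ, e]
  have ind : ∀ (s : Finset _) (c : _ → Module.End ℤ V), (∀ i, c i ∈ S) →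
      (∀ b ∈ A, ∑ i ∈ s, c i (ρ (a i) (ρ b (q v))) = 0) → ∀ i ∈ s, c i (q v) = 0 := fun s => by
    induction s using Finset.induction_on with
    | empty => simp
    | insert j s hj ih =>
      intro c hc hr
      have t : ∀ i ∈ s, c i (q v) = 0 := fun i hi => by
        obtain ⟨b, hb, e, he, e1⟩ := sep i j fun e => hj (e ▸ hi)
        have y : ∀ i, ρ ⁅b, a i⁆ ∈ S := fun i => h1 _ (h.cA b hb _ (ha i))
        have := ih (fun i => c i * (ρ ⁅b, a i⁆ - ρ ⁅b, a j⁆))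
          (fun i => S.mul_mem (hc i) (S.sub_mem (y i) (y j))) (fun b' hb' => by
            have r1 := congrArg (ρ b) (hr _ (A.mul_mem (A.inv_mem hb) hb'))
            have r2 := congrArg (ρ ⁅b, a j⁆) (hr _ hb')
            have r3 : ∀ i, ρ b (c i (ρ (a i) (ρ (b⁻¹ * b') (q v)))) =
                c i (ρ ⁅b, a i⁆ (ρ (a i) (ρ b' (q v)))) := fun i => by
              rw [c3 b hb _ (hc i), ← Module.End.mul_apply (ρ b), d.rel h.nL (h.AG hb) (h.AG (ha i)),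
                Module.End.mul_apply, Module.End.mul_apply, ← Module.End.mul_apply (ρ b),
                ← d.mul h.nL (h.AG hb) (h.AG (A.mul_mem (A.inv_mem hb) hb')), mul_inv_cancel_left]
            rw [map_sum, map_zero] at r1 r2
            simp only [r3, c2 _ (y j) _ (hc _), Finset.sum_insert hj] at r1 r2
            simp only [Module.End.mul_apply, LinearMap.sub_apply, map_sub, Finset.sum_sub_distrib]
            rw [eq_neg_of_add_eq_zero_right r1, eq_neg_of_add_eq_zero_right r2, sub_self]) i hi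
        rw [← e1, c2 _ (hc i) _ he, ← Module.End.mul_apply (c i), this, map_zero]
      intro i hi
      rcases Finset.mem_insert.1 hi with rfl | hi
      · have := hr _ (A.inv_mem (ha i))
        rw [Finset.sum_insert hj, Finset.sum_eq_zero fun k hk => by
          rw [← c3 _ (ha k) _ (hc k), ← c3 _ (A.inv_mem (ha i)) _ (hc k), t k hk, map_zero,
            map_zero], add_zero] at this
        rw [← this, ← iv _ (G.inv_mem (h.AG (ha i))) (q v), inv_inv, iv _ (h.AG (ha i))]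
      · exact t i hi
  have := two_pow_le (fun s : Finset _ => ∑ i ∈ s, ρ (a i)) fun s t e => Finset.ext fun i => by
    have := ind Finset.univ (fun i => (if i ∈ s then 1 else 0) - if i ∈ t then 1 else 0)
      (fun i => S.sub_mem (by split_ifs; exacts [S.one_mem, S.zero_mem])
        (by split_ifs; exacts [S.one_mem, S.zero_mem])) (fun b _ => by
        have e' := LinearMap.congr_fun e (ρ b (q v))
        have e2 : ∀ (p : Prop) [Decidable p] (w : V),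
            (if p then (1 : Module.End ℤ V) else 0) w = if p then w else 0 := fun p _ w => by
          split_ifs <;> rfl
        simpa [sub_eq_zero, e2] using e') i (Finset.mem_univ _)
    have h0 := ((d.gd h hv.1).1 hv).1
    by_cases i ∈ s <;> by_cases i ∈ t <;> simp_all
  rw [Subgroup.relIndex, Subgroup.index, Nat.card_eq_fintype_card]
  exact (Nat.pow_le_pow_iff_right one_lt_two).1 (this.trans (card_end_le (hc.trans_lt hl)))

end Pool.Agent.P.MP_f1a348_lc.CT
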